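import Pool.Agent.Helper18.BV.St

/-!
# Project BV, module BV-8: prime number theorem for primitive characters of small conductor
-/

set_option autoImplicit false

open Finset Filter Topology MeasureTheory
open scoped ArithmeticFunction.vonMangoldt ArithmeticFunction.Moebius ArithmeticFunction.zeta

namespace Pool.Agent.Helper81.BV

open Pool.Agent.Helper18.BV

lemma tsum_rpow_le (δ : ℝ) (hδ : 0 < δ) :
    Summable (fun n : ℕ => (n : ℝ) ^ (-(1 + δ))) ∧ ∑' n : ℕ, (n : ℝ) ^ (-(1 + δ)) ≤ 1 + 1 / δ := by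
  have hs : Summable (fun n : ℕ => (n : ℝ) ^ (-(1 + δ))) :=
    Real.summable_nat_rpow.2 (by linarith)
  refine ⟨hs, ?_⟩
  have h0 : ((0 : ℕ) : ℝ) ^ (-(1 + δ)) = 0 := by
    rw [Nat.cast_zero, Real.zero_rpow (by linarith)]
  have hsplit : ∑' n : ℕ, (n : ℝ) ^ (-(1 + δ)) =
      ((0 : ℕ) : ℝ) ^ (-(1 + δ)) + (((0 + 1 : ℕ) : ℝ) ^ (-(1 + δ)) +
        ∑' n : ℕ, ((n + 1 + 1 : ℕ) : ℝ) ^ (-(1 + δ))) := by
    rw [hs.tsum_eq_zero_add]
    congr 1
    exact (((summable_nat_add_iff 1).2 hs).tsum_eq_zero_add)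
  have h1 : ∑' n : ℕ, ((n + 1 + 1 : ℕ) : ℝ) ^ (-(1 + δ)) ≤ 1 / δ := by
    refine Real.tsum_le_of_sum_range_le (fun n => by positivity) fun N => ?_
    have hanti : AntitoneOn (fun y : ℝ => y ^ (-(1 + δ))) (Set.Icc 1 (1 + N)) := by
      intro a ha b hb hab
      have ha' : (0 : ℝ) < a := lt_of_lt_of_le one_pos ha.1
      exact Real.rpow_le_rpow_of_nonpos ha' hab (by linarith)
    have h2 := hanti.sum_le_integral
    have h3 : ∫ y in (1 : ℝ)..(1 + N), y ^ (-(1 + δ)) = (1 - (1 + (N : ℝ)) ^ (-δ)) / δ := by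
      rw [integral_rpow]
      · have : -(1 + δ) + 1 = -δ := by ring
        rw [this, Real.one_rpow, div_neg, ← neg_div, neg_sub]
      · right
        refine ⟨by linarith, ?_⟩
        rw [Set.uIcc_of_le (by have : (0 : ℝ) ≤ N := Nat.cast_nonneg N
                               linarith)]
        intro h
        linarith [h.1]
    rw [h3] at h2
    have h4 : (1 - (1 + (N : ℝ)) ^ (-δ)) / δ ≤ 1 / δ := by
      apply div_le_div_of_nonneg_right _ hδ.le
      have : (0 : ℝ) ≤ (1 + (N : ℝ)) ^ (-δ) := by positivity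
      linarith
    refine le_trans (le_of_eq ?_) (h2.trans h4)
    refine Finset.sum_congr rfl fun i _ => ?_
    push_cast
    congr 1
    ring
  rw [hsplit, h0]
  simp only [zero_add, Nat.cast_one, Real.one_rpow]
  linarith

lemma iterate_logMul (f : ℕ → ℂ) (k n : ℕ) :
    (LSeries.logMul^[k] f) n = Complex.log n ^ k * f n := by
  induction k with
  | zero => simp
  | succ k ih =>
    rw [Function.iterate_succ', Function.comp_apply]
    change Complex.log n * (LSeries.logMul^[k] f) n = _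
    rw [ih]
    ring

/-- The coefficients `(log n)^k χ(n) Λ(n)`. -/
noncomputable def co (k : ℕ) {q : ℕ} (χ : DirichletCharacter ℂ q) (n : ℕ) : ℂ :=
  Complex.log n ^ k * (χ (n : ZMod q) * ((Λ n : ℝ) : ℂ))

lemma lseries_co (k : ℕ) {q : ℕ} [NeZero q] (χ : DirichletCharacter ℂ q) {s : ℂ} (hs : 1 < s.re) :
    LSeries (co k χ) s = -((-1) ^ k * iteratedDeriv k (fun z =>
      deriv (DirichletCharacter.LFunction χ) z / DirichletCharacter.LFunction χ z) s) := by
  set f : ℕ → ℂ := (fun n : ℕ => χ (n : ZMod q)) * (fun n : ℕ => ((Λ n : ℝ) : ℂ)) with hf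
  have habs : LSeries.abscissaOfAbsConv f < s.re := by
    obtain ⟨y, hy1, hy2⟩ := exists_between hs
    have hsum : LSeriesSummable f (y : ℂ) :=
      DirichletCharacter.LSeriesSummable_twist_vonMangoldt χ (by simpa using hy1)
    refine lt_of_le_of_lt hsum.abscissaOfAbsConv_le ?_
    simpa using hy2
  have h1 := LSeries_iteratedDeriv k habs
  have h2 : LSeries.logMul^[k] f = co k χ := by
    ext n
    rw [iterate_logMul]
    rfl
  rw [h2] at h1
  have h3 : (LSeries f) =ᶠ[𝓝 s] fun z => -(deriv (DirichletCharacter.LFunction χ) z /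
      DirichletCharacter.LFunction χ z) := by
    have h : {z : ℂ | 1 < z.re} ∈ nhds s :=
      (isOpen_lt continuous_const Complex.continuous_re).mem_nhds hs
    filter_upwards [h] with z hz
    have := DirichletCharacter.LSeries_twist_vonMangoldt_eq χ hz
    rw [DirichletCharacter.deriv_LFunction_eq_deriv_LSeries χ hz,
      DirichletCharacter.LFunction_eq_LSeries χ hz, ← neg_div]
    exact this
  have h4 := h3.iteratedDeriv_eq k
  have h5 : iteratedDeriv k (fun z => -(deriv (DirichletCharacter.LFunction χ) z /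
      DirichletCharacter.LFunction χ z)) s = -iteratedDeriv k (fun z =>
      deriv (DirichletCharacter.LFunction χ) z / DirichletCharacter.LFunction χ z) s :=
    iteratedDeriv_fun_neg k _ s
  rw [h5, h1] at h4
  have h6 : ((-1 : ℂ) ^ k) * (-1) ^ k = 1 := by
    rw [← mul_pow]
    simp
  calc LSeries (co k χ) s = ((-1 : ℂ) ^ k * (-1) ^ k) * LSeries (co k χ) s := by rw [h6, one_mul]
    _ = (-1) ^ k * ((-1) ^ k * LSeries (co k χ) s) := by ring
    _ = _ := by rw [h4]; ring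

lemma norm_co_le (k : ℕ) {q : ℕ} (χ : DirichletCharacter ℂ q) (n : ℕ) :
    ‖co k χ n‖ ≤ Real.log n ^ (k + 1) := by
  rw [co, norm_mul, norm_mul, norm_pow, ← Complex.natCast_log, Complex.norm_real,
    Complex.norm_real, Real.norm_of_nonneg (Real.log_natCast_nonneg n),
    Real.norm_of_nonneg ArithmeticFunction.vonMangoldt_nonneg, pow_succ]
  refine mul_le_mul_of_nonneg_left ?_ (pow_nonneg (Real.log_natCast_nonneg n) k)
  calc ‖χ (n : ZMod q)‖ * Λ n ≤ 1 * Real.log n :=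
        mul_le_mul (DirichletCharacter.norm_le_one χ _) ArithmeticFunction.vonMangoldt_le_log
          ArithmeticFunction.vonMangoldt_nonneg zero_le_one
    _ = Real.log n := one_mul _

lemma co_zero (k : ℕ) {q : ℕ} (χ : DirichletCharacter ℂ q) : co k χ 0 = 0 := by
  simp [co]

lemma pow_log_le (l : ℝ) (hl : 0 < l) (m n : ℕ) (hn : n ≠ 0) :
    Real.log n ^ m ≤ m.factorial * (2 * l) ^ m * (n : ℝ) ^ (1 / (2 * l)) := by
  have hn' : (0 : ℝ) < n := by exact_mod_cast Nat.pos_of_ne_zero hn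
  have h1 := Real.pow_div_factorial_le_exp (Real.log n / (2 * l))
    (div_nonneg (Real.log_natCast_nonneg n) (by positivity)) m
  have h2 : Real.exp (Real.log n / (2 * l)) = (n : ℝ) ^ (1 / (2 * l)) := by
    rw [Real.rpow_def_of_pos hn']
    congr 1
    ring
  rw [h2, div_pow, div_div, div_le_iff₀ (by positivity)] at h1
  calc Real.log n ^ m ≤ _ := h1
    _ = _ := by ring

/-- The absolute values of the terms. -/
noncomputable def bb (k : ℕ) {q : ℕ} (χ : DirichletCharacter ℂ q) (l : ℝ) (n : ℕ) : ℝ :=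
  ‖co k χ n‖ * (n : ℝ) ^ (-(1 + 1 / l))

lemma bb_nonneg (k : ℕ) {q : ℕ} (χ : DirichletCharacter ℂ q) (l : ℝ) (n : ℕ) :
    0 ≤ bb k χ l n := by
  unfold bb
  positivity

lemma bb_le (k : ℕ) {q : ℕ} (χ : DirichletCharacter ℂ q) (l : ℝ) (hl : 0 < l) (n : ℕ) :
    bb k χ l n ≤ ((k + 1).factorial * (2 * l) ^ (k + 1)) * (n : ℝ) ^ (-(1 + 1 / (2 * l))) := by
  unfold bb
  rcases eq_or_ne n 0 with rfl | hn
  · rw [co_zero, norm_zero, zero_mul]
    positivity
  have hn' : (0 : ℝ) < n := by exact_mod_cast Nat.pos_of_ne_zero hn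
  have h1 := (norm_co_le k χ n).trans (pow_log_le l hl (k + 1) n hn)
  calc ‖co k χ n‖ * (n : ℝ) ^ (-(1 + 1 / l)) ≤
      ((k + 1).factorial * (2 * l) ^ (k + 1) * (n : ℝ) ^ (1 / (2 * l))) *
        (n : ℝ) ^ (-(1 + 1 / l)) := mul_le_mul_of_nonneg_right h1 (by positivity)
    _ = ((k + 1).factorial * (2 * l) ^ (k + 1)) * ((n : ℝ) ^ (1 / (2 * l)) *
        (n : ℝ) ^ (-(1 + 1 / l))) := by ring
    _ = _ := by
      rw [← Real.rpow_add hn']
      congr 2
      field_simp
      ring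

lemma bb_sum (k : ℕ) {q : ℕ} (χ : DirichletCharacter ℂ q) (l : ℝ) (hl : 1 ≤ l) :
    Summable (bb k χ l) ∧ ∑' n, bb k χ l n ≤ ((k + 1).factorial * 2 ^ (k + 1) * 3) * l ^ (k + 2) := by
  have hl0 : 0 < l := by linarith
  obtain ⟨hs, hle⟩ := tsum_rpow_le (1 / (2 * l)) (by positivity)
  have hs2 := hs.mul_left ((k + 1).factorial * (2 * l) ^ (k + 1) : ℝ)
  have hsum : Summable (bb k χ l) :=
    Summable.of_nonneg_of_le (bb_nonneg k χ l) (bb_le k χ l hl0) hs2
  refine ⟨hsum, ?_⟩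
  calc ∑' n, bb k χ l n ≤ ∑' n : ℕ, ((k + 1).factorial * (2 * l) ^ (k + 1) : ℝ) *
        (n : ℝ) ^ (-(1 + 1 / (2 * l))) := hsum.tsum_le_tsum (bb_le k χ l hl0) hs2
    _ = ((k + 1).factorial * (2 * l) ^ (k + 1) : ℝ) * ∑' n : ℕ, (n : ℝ) ^ (-(1 + 1 / (2 * l))) :=
        tsum_mul_left
    _ ≤ ((k + 1).factorial * (2 * l) ^ (k + 1) : ℝ) * (3 * l) := by
        refine mul_le_mul_of_nonneg_left (hle.trans ?_) (by positivity)
        rw [one_div_one_div]
        linarith
    _ = _ := by rw [mul_pow]; ring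

/-- The point `1 + (1 - it) / l`. -/
noncomputable def st (l t : ℝ) : ℂ := 1 + (1 - t * Complex.I) / l

lemma st_re (l t : ℝ) : (st l t).re = 1 + 1 / l := by
  unfold st
  have : (1 - (t : ℂ) * Complex.I) / (l : ℂ) = ((1 / l : ℝ) : ℂ) + ((-t / l : ℝ) : ℂ) * Complex.I := by
    push_cast
    ring
  rw [this]
  simp

lemma norm_term (k : ℕ) {q : ℕ} (χ : DirichletCharacter ℂ q) (l t : ℝ) (n : ℕ) :
    ‖LSeries.term (co k χ) (st l t) n‖ = bb k χ l n := by
  rw [LSeries.norm_term_eq, bb, st_re]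
  split_ifs with h
  · rw [h, co_zero, norm_zero, zero_mul]
  · rw [Real.rpow_neg (Nat.cast_nonneg n), div_eq_mul_inv]

lemma term_eq (k : ℕ) {q : ℕ} (χ : DirichletCharacter ℂ q) (l t : ℝ) (n : ℕ) (hn : n ≠ 0) :
    LSeries.term (co k χ) (st l t) n = co k χ n * ((n : ℂ)⁻¹ * Complex.exp (-(Real.log n / l : ℝ))) *
      Complex.exp (t * (Real.log n / l : ℝ) * Complex.I) := by
  have hn' : (0 : ℝ) < n := by exact_mod_cast Nat.pos_of_ne_zero hn
  have hnc : (n : ℂ) ≠ 0 := by exact_mod_cast hn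
  rw [LSeries.term_of_ne_zero hn, div_eq_mul_inv, mul_assoc]
  congr 1
  rw [Complex.cpow_def_of_ne_zero hnc, ← Complex.exp_neg, mul_assoc, ← Complex.exp_add]
  have h1 : (n : ℂ)⁻¹ = Complex.exp (-(Real.log n : ℂ)) := by
    rw [Complex.exp_neg, Complex.natCast_log, Complex.exp_log hnc]
  rw [h1, ← Complex.exp_add, ← Complex.natCast_log]
  congr 1
  unfold st
  push_cast
  ring

/-- The auxiliary test function. -/
noncomputable def gk (g : ℝ → ℝ) (k : ℕ) (v : ℝ) : ℝ := g v * (v⁻¹) ^ k * Real.exp v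

lemma wt_zero {g : ℝ → ℝ} (hg : IsWt g) {v : ℝ} (hv : v ∉ Set.Ioo (1 / 2 : ℝ) 1) : g v = 0 :=
  image_eq_zero_of_notMem_tsupport fun h => hv (hg.supp h)

lemma gk_smooth {g : ℝ → ℝ} (hg : IsWt g) (k : ℕ) : ContDiff ℝ (⊤ : ℕ∞) (gk g k) := by
  rw [contDiff_iff_contDiffAt]
  intro v
  by_cases hv : v ∈ tsupport g
  · have hv0 : v ≠ 0 := by
      have := (hg.supp hv).1
      intro h
      rw [h] at this
      norm_num at this
    exact (hg.smooth.contDiffAt.mul ((contDiffAt_inv ℝ hv0).pow k)).mul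
      Real.contDiff_exp.contDiffAt
  · rw [notMem_tsupport_iff_eventuallyEq] at hv
    have : gk g k =ᶠ[𝓝 v] fun _ => (0 : ℝ) := by
      filter_upwards [hv] with w hw
      simp [gk, hw]
    exact contDiffAt_const.congr_of_eventuallyEq this

lemma gk_compact {g : ℝ → ℝ} (hg : IsWt g) (k : ℕ) : HasCompactSupport (gk g k) := by
  refine HasCompactSupport.intro (isCompact_Icc (a := (1 / 2 : ℝ)) (b := 1)) fun v hv => ?_
  have : g v = 0 := wt_zero hg fun h => hv (Set.Ioo_subset_Icc_self h)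
  simp [gk, this]

lemma integral_term {h : ℝ → ℂ} (k : ℕ) {q : ℕ} (χ : DirichletCharacter ℂ q) (l : ℝ)
    (G : ℝ → ℝ) (hrep : ∀ v : ℝ, (G v : ℂ) = ∫ t : ℝ, h t * Complex.exp (t * v * Complex.I))
    (n : ℕ) : ∫ t, h t * LSeries.term (co k χ) (st l t) n =
      co k χ n * ((n : ℂ)⁻¹ * Complex.exp (-(Real.log n / l : ℝ))) * G (Real.log n / l) := by
  rcases eq_or_ne n 0 with rfl | hn
  · simp [co_zero]
  · rw [hrep, ← integral_const_mul]
    congr 1
    ext t
    rw [term_eq k χ l t n hn]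
    ring

lemma continuous_term (k : ℕ) {q : ℕ} (χ : DirichletCharacter ℂ q) (l : ℝ) (n : ℕ) :
    Continuous fun t : ℝ => LSeries.term (co k χ) (st l t) n := by
  rcases eq_or_ne n 0 with rfl | hn
  · simp [continuous_const]
  · have : (fun t : ℝ => LSeries.term (co k χ) (st l t) n) = fun t : ℝ =>
        co k χ n * ((n : ℂ)⁻¹ * Complex.exp (-(Real.log n / l : ℝ))) *
          Complex.exp (t * (Real.log n / l : ℝ) * Complex.I) := by
      ext t
      exact term_eq k χ l t n hn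
    rw [this]
    fun_prop

lemma identity {g : ℝ → ℝ} (hg : IsWt g) {h : ℝ → ℂ} (hc : Continuous h)
    (hi : Integrable (fun t : ℝ => ‖h t‖)) (k : ℕ)
    (hrep : ∀ v : ℝ, (gk g k v : ℂ) = ∫ t : ℝ, h t * Complex.exp (t * v * Complex.I))
    (x : ℝ) (hx0 : 1 < x) (hx : 1 ≤ Real.log x) {q : ℕ} (χ : DirichletCharacter ℂ q) :
    SS LaC g x χ = ((Real.log x : ℂ)⁻¹) ^ k *
      ∫ t, h t * LSeries (co k χ) (st (Real.log x) t) := by
  set l := Real.log x with hl
  have hl0 : 0 < l := by linarith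
  have hint : ∀ n, Integrable (fun t => h t * LSeries.term (co k χ) (st l t) n) := by
    intro n
    refine Integrable.mono' (hi.mul_const (bb k χ l n))
      (hc.mul (continuous_term k χ l n)).aestronglyMeasurable (Eventually.of_forall fun t => ?_)
    rw [norm_mul, norm_term]
  have hsum : Summable fun n => ∫ t, ‖h t * LSeries.term (co k χ) (st l t) n‖ := by
    have : (fun n => ∫ t, ‖h t * LSeries.term (co k χ) (st l t) n‖) =
        fun n => (∫ t, ‖h t‖) * bb k χ l n := by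
      ext n
      rw [← integral_mul_const]
      congr 1
      ext t
      rw [norm_mul, norm_term]
    rw [this]
    exact (bb_sum k χ l hx).1.mul_left _
  have h1 : ∫ t, h t * LSeries (co k χ) (st l t) =
      ∑' n : ℕ, ∫ t, h t * LSeries.term (co k χ) (st l t) n := by
    rw [integral_tsum_of_summable_integral_norm hint hsum]
    congr 1
    ext t
    rw [tsum_mul_left]
    rfl
  rw [h1]
  simp only [integral_term k χ l (gk g k) hrep]
  rw [← tsum_mul_left]
  have hz : ∀ n ∉ Icc 1 ⌊x⌋₊, ((l : ℂ)⁻¹) ^ k * (co k χ n * ((n : ℂ)⁻¹ *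
      Complex.exp (-(Real.log n / l : ℝ))) * gk g k (Real.log n / l)) = 0 := by
    intro n hn
    rcases eq_or_ne n 0 with rfl | hn0
    · simp [co_zero]
    · have hnx : x < n := by
        by_contra hcon
        push Not at hcon
        exact hn (Finset.mem_Icc.2 ⟨Nat.pos_of_ne_zero hn0, Nat.le_floor hcon⟩)
      have h2 : g (Real.log n / l) = 0 := by
        refine wt_zero hg fun h => ?_
        have h3 := h.2
        rw [div_lt_one hl0] at h3
        exact absurd (Real.log_lt_log (by linarith) hnx) (not_lt.2 h3.le)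
      simp [gk, h2]
  rw [tsum_eq_sum hz]
  unfold SS
  refine Finset.sum_congr rfl fun n hn => ?_
  have hn0 : n ≠ 0 := by
    have := (Finset.mem_Icc.1 hn).1
    omega
  have hnc : (n : ℂ) ≠ 0 := by exact_mod_cast hn0
  have hlogc : Complex.log (n : ℂ) = ((Real.log n : ℝ) : ℂ) := (Complex.natCast_log).symm
  rw [co, LaC_apply, wt, gk, hlogc]
  generalize Real.log (n : ℝ) = L
  rcases eq_or_ne L 0 with hlog | hlog
  · have h2 : g 0 = 0 := wt_zero hg (by norm_num)
    simp [hlog, h2]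
  · have hlc : (l : ℂ) ≠ 0 := by exact_mod_cast hl0.ne'
    have hLc : (L : ℂ) ≠ 0 := by exact_mod_cast hlog
    have hexp : Complex.exp (-((L : ℂ) / l)) * Complex.exp ((L : ℂ) / l) = 1 := by
      rw [← Complex.exp_add]
      simp
    push_cast
    rw [inv_div, div_pow, inv_pow]
    calc _ = (Λ n : ℂ) * χ (n : ZMod q) * (g (L / l) / n) * 1 := by ring
      _ = (Λ n : ℂ) * χ (n : ZMod q) * (g (L / l) / n) *
          (Complex.exp (-((L : ℂ) / l)) * Complex.exp ((L : ℂ) / l)) := by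
        rw [hexp]
      _ = _ := by
        field_simp

lemma st_sub_one_norm_le (l t : ℝ) (hl : 16 ≤ l) (ht : |t| ≤ l ^ (1 / 4 : ℝ)) :
    ‖st l t - 1‖ ≤ l ^ (-(1 / 2) : ℝ) := by
  have hl0 : 0 < l := by linarith
  have h1 : st l t - 1 = (1 - t * Complex.I) / l := by
    unfold st
    ring
  set y := l ^ (1 / 4 : ℝ) with hy
  have hy2 : 2 ≤ y := by
    have : (16 : ℝ) ^ (1 / 4 : ℝ) = 2 := by
      rw [show (16 : ℝ) = 2 ^ (4 : ℝ) by norm_num, ← Real.rpow_mul (by norm_num)]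
      norm_num
    rw [← this]
    exact Real.rpow_le_rpow (by norm_num) hl (by norm_num)
  have hyy : y * y = l ^ (1 / 2 : ℝ) := by
    rw [hy, ← Real.rpow_add hl0]
    norm_num
  have h2 : ‖(1 : ℂ) - t * Complex.I‖ ≤ 1 + |t| := by
    refine (norm_sub_le _ _).trans ?_
    simp
  rw [h1, norm_div, Complex.norm_real, Real.norm_of_nonneg hl0.le]
  have h3 : l ^ (-(1 / 2) : ℝ) = l ^ (1 / 2 : ℝ) / l := by
    rw [eq_div_iff hl0.ne']
    nth_rewrite 2 [← Real.rpow_one l]
    rw [← Real.rpow_add hl0]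
    norm_num
  rw [h3]
  refine div_le_div_of_nonneg_right ?_ hl0.le
  rw [← hyy]
  nlinarith

lemma norm_lseries_le (k : ℕ) {q : ℕ} (χ : DirichletCharacter ℂ q) (l t : ℝ) (hl : 1 ≤ l) :
    ‖LSeries (co k χ) (st l t)‖ ≤ ((k + 1).factorial * 2 ^ (k + 1) * 3) * l ^ (k + 2) := by
  obtain ⟨hs, hle⟩ := bb_sum k χ l hl
  refine le_trans ?_ hle
  unfold LSeries
  refine (norm_tsum_le_tsum_norm ?_).trans (le_of_eq ?_)
  · simp only [norm_term]
    exact hs
  · simp only [norm_term]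

/-- Module BV-8. -/
theorem small (h1 : NearOne) (h2 : FourierRep) : Small := by
  intro g hg A B hA hB
  set k : ℕ := ⌈2 * A + 2⌉₊ with hk
  have hkA : 2 * A + 2 ≤ k := Nat.le_ceil _
  set M : ℕ := ⌈A + 2⌉₊ with hM
  have hMA : A + 2 ≤ M := Nat.le_ceil _
  obtain ⟨C1, X1, hC1, hX1, hno⟩ := h1 B k hB
  obtain ⟨h, hc, hint, hrep⟩ := h2 (gk g k) (gk_smooth hg k) (gk_compact hg k)
  have hi : Integrable (fun t : ℝ => ‖h t‖) := by
    simpa using hint 0
  set I0 : ℝ := ∫ t, ‖h t‖ with hI0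
  set IN : ℝ := ∫ t, (1 + |t|) ^ (4 * M) * ‖h t‖ with hIN
  have hI0' : 0 ≤ I0 := integral_nonneg fun t => norm_nonneg _
  have hIN' : 0 ≤ IN := integral_nonneg fun t => by positivity
  set Ck : ℝ := (k + 1).factorial * 2 ^ (k + 1) * 3 with hCk
  have hCk' : 0 ≤ Ck := by positivity
  refine ⟨C1 * I0 + Ck * IN + 1, max X1 (Real.exp 16), by positivity,
    hX1.trans (le_max_left _ _), fun x hx q hq hqB χ hχ => ?_⟩
  have hx1 : X1 ≤ x := (le_max_left _ _).trans hx
  have hx16 : Real.exp 16 ≤ x := (le_max_right _ _).trans hx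
  have hx0 : 0 < x := (Real.exp_pos _).trans_le hx16
  set l := Real.log x with hl
  have hl16 : 16 ≤ l := by
    rw [hl, Real.le_log_iff_exp_le hx0]
    exact hx16
  have hl0 : 0 < l := by linarith
  have hl1 : 1 ≤ l := by linarith
  have : NeZero q := ⟨by omega⟩
  rw [identity hg hc hi k hrep x (by linarith) hl1 χ, ← hl]
  have hpt : ∀ t : ℝ, ‖h t * LSeries (co k χ) (st l t)‖ ≤
      C1 * l ^ (((k : ℝ) + 1) / 2) * ‖h t‖ +
        Ck * l ^ (k + 2) / l ^ M * ((1 + |t|) ^ (4 * M) * ‖h t‖) := by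
    intro t
    rw [norm_mul]
    rcases le_or_gt |t| (l ^ (1 / 4 : ℝ)) with ht | ht
    · have h3 := hno x hx1 q hq hqB χ hχ (st l t) (st_sub_one_norm_le l t hl16 ht)
      have h4 : ‖LSeries (co k χ) (st l t)‖ ≤ C1 * l ^ (((k : ℝ) + 1) / 2) := by
        rw [lseries_co k χ (by rw [st_re]; have : 0 < 1 / l := by positivity
                               linarith), norm_neg, norm_mul, norm_pow, norm_neg, norm_one,
          one_pow, one_mul]
        exact h3
      have h5 : 0 ≤ Ck * l ^ (k + 2) / l ^ M * ((1 + |t|) ^ (4 * M) * ‖h t‖) := by positivity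
      nlinarith [mul_le_mul_of_nonneg_left h4 (norm_nonneg (h t))]
    · have h3 := norm_lseries_le k χ l t hl1
      have h4 : l ^ M ≤ (1 + |t|) ^ (4 * M) := by
        have h5 : l = (l ^ (1 / 4 : ℝ)) ^ 4 := by
          rw [← Real.rpow_natCast, ← Real.rpow_mul hl0.le]
          norm_num
        calc l ^ M = ((l ^ (1 / 4 : ℝ)) ^ 4) ^ M := by rw [← h5]
          _ = (l ^ (1 / 4 : ℝ)) ^ (4 * M) := by rw [pow_mul]
          _ ≤ (1 + |t|) ^ (4 * M) := by
            refine pow_le_pow_left₀ (by positivity) ?_ _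
            linarith
      have h5 : 1 ≤ (1 + |t|) ^ (4 * M) / l ^ M := by
        rw [one_le_div (by positivity)]
        exact h4
      have h6 : 0 ≤ C1 * l ^ (((k : ℝ) + 1) / 2) * ‖h t‖ := by positivity
      have h7 : ‖h t‖ * ‖LSeries (co k χ) (st l t)‖ ≤ ‖h t‖ * (Ck * l ^ (k + 2)) :=
        mul_le_mul_of_nonneg_left h3 (norm_nonneg _)
      have h8 : ‖h t‖ * (Ck * l ^ (k + 2)) * 1 ≤
          ‖h t‖ * (Ck * l ^ (k + 2)) * ((1 + |t|) ^ (4 * M) / l ^ M) :=
        mul_le_mul_of_nonneg_left h5 (by positivity)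
      have h9 : ‖h t‖ * (Ck * l ^ (k + 2)) * ((1 + |t|) ^ (4 * M) / l ^ M) =
          Ck * l ^ (k + 2) / l ^ M * ((1 + |t|) ^ (4 * M) * ‖h t‖) := by
        ring
      linarith
  have hbound : ‖∫ t, h t * LSeries (co k χ) (st l t)‖ ≤
      C1 * l ^ (((k : ℝ) + 1) / 2) * I0 + Ck * l ^ (k + 2) / l ^ M * IN := by
    have hi1 : Integrable fun t : ℝ => C1 * l ^ (((k : ℝ) + 1) / 2) * ‖h t‖ := hi.const_mul _
    have hi2 : Integrable fun t : ℝ =>
        Ck * l ^ (k + 2) / l ^ M * ((1 + |t|) ^ (4 * M) * ‖h t‖) := (hint (4 * M)).const_mul _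
    refine (norm_integral_le_of_norm_le (hi1.add hi2) (Eventually.of_forall hpt)).trans
      (le_of_eq ?_)
    simp only [Pi.add_apply]
    rw [integral_add hi1 hi2, integral_const_mul, integral_const_mul]
  rw [norm_mul, norm_pow, norm_inv, Complex.norm_real, Real.norm_of_nonneg hl0.le]
  have hA1 : (l⁻¹) ^ k * l ^ (((k : ℝ) + 1) / 2) ≤ l ^ (-A) := by
    rw [← Real.rpow_natCast, Real.inv_rpow hl0.le, ← Real.rpow_neg hl0.le, ← Real.rpow_add hl0]
    exact Real.rpow_le_rpow_of_exponent_le hl1 (by linarith)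
  have hA2 : (l⁻¹) ^ k * (l ^ (k + 2) / l ^ M) ≤ l ^ (-A) := by
    have : (l⁻¹) ^ k * (l ^ (k + 2) / l ^ M) = l ^ ((2 : ℝ) - M) := by
      rw [Real.rpow_sub hl0, Real.rpow_natCast, inv_pow, pow_add]
      norm_cast
      field_simp
    rw [this]
    exact Real.rpow_le_rpow_of_exponent_le hl1 (by linarith)
  have hlA : 0 < l ^ (-A) := Real.rpow_pos_of_pos hl0 _
  calc (l⁻¹) ^ k * ‖∫ t, h t * LSeries (co k χ) (st l t)‖ ≤
      (l⁻¹) ^ k * (C1 * l ^ (((k : ℝ) + 1) / 2) * I0 + Ck * l ^ (k + 2) / l ^ M * IN) :=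
        mul_le_mul_of_nonneg_left hbound (by positivity)
    _ = C1 * I0 * ((l⁻¹) ^ k * l ^ (((k : ℝ) + 1) / 2)) +
        Ck * IN * ((l⁻¹) ^ k * (l ^ (k + 2) / l ^ M)) := by ring
    _ ≤ C1 * I0 * l ^ (-A) + Ck * IN * l ^ (-A) :=
        add_le_add (mul_le_mul_of_nonneg_left hA1 (by positivity))
          (mul_le_mul_of_nonneg_left hA2 (by positivity))
    _ ≤ (C1 * I0 + Ck * IN + 1) * l ^ (-A) := by nlinarith
    _ = (C1 * I0 + Ck * IN + 1) / l ^ A := by
        rw [Real.rpow_neg hl0.le, div_eq_mul_inv]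

end Pool.Agent.Helper81.BV
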